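import Pool.Agent.H.MP_1ce666_co.Main

namespace Pool.Agent.Results.MP_1ce666_co.Full
open Pool.Agent.H.MP_1ce666_co

theorem result : (∀ n, 2 ≤ n → a n = Nat.fib (2 * n - 1)) ∧
    ∀ n (π : Equiv.Perm (Fin n)), ∃! σ, Theta σ π :=
  ⟨fun n hn => main n (by omega), fun _ π => theta_unique π⟩

end Pool.Agent.Results.MP_1ce666_co.Full
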